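import Pool.Agent.helper60.DB.SpecF

/-!
# Row bf:CG (MP_fb2c2a_nt)
-/

namespace Pool.Agent.helper60.DB

open Polynomial Finset Pool.Agent.helper60.DK

theorem CG (hIZ : IZ_stmt) (hTW : TW_stmt) (hCE : CE_stmt) : CG_stmt := by
  intro R k _ _ _ _ p m _ _ q hq h7 h11 hpm u v a b y w hu hv hqu hy hw hp hz
  obtain ⟨hint, -⟩ := hIZ R k p q hq
  have hprime : p.Prime := Fact.out
  obtain ⟨k1, k2, k3, k4, -, r2, r3⟩ := hCE R u v y hu hv hy
  have hB : ((-3 : ℤ) : R) = -3 := by norm_num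
  have hp3 : ¬ (p : ℤ) ∣ -3 := by
    intro h
    have h1 : (p : ℤ) ∣ 3 := (dvd_neg).mp h
    have h2 : p ∣ 3 := by exact_mod_cast h1
    have h3 := Nat.le_of_dvd (by norm_num) h2
    omega
  have hq396 : q (((396 : ℤ) : R)) ≠ 0 := by
    intro h
    have h1 := (hint 396).mp h
    have h2 : p ∣ 396 := by exact_mod_cast h1
    have h3 : (396 : ℕ) = 2 ^ 2 * 3 ^ 2 * 11 := by norm_num
    rw [h3] at h2
    rcases (Nat.Prime.dvd_mul hprime).mp h2 with h4 | h4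
    · rcases (Nat.Prime.dvd_mul hprime).mp h4 with h5 | h5
      · have h6 := Nat.le_of_dvd (by norm_num) (hprime.dvd_of_dvd_pow h5)
        omega
      · have h6 := Nat.le_of_dvd (by norm_num) (hprime.dvd_of_dvd_pow h5)
        omega
    · exact h11 ((Nat.prime_dvd_prime_iff_eq hprime (by norm_num)).mp h4)
  have hq58 : q (((589824 : ℤ) : R)) ≠ 0 := by
    intro h
    have h1 := (hint 589824).mp h
    have h2 : p ∣ 589824 := by exact_mod_cast h1
    have h3 : (589824 : ℕ) = 2 ^ 16 * 3 ^ 2 := by norm_num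
    rw [h3] at h2
    rcases (Nat.Prime.dvd_mul hprime).mp h2 with h5 | h5
    · have h6 := Nat.le_of_dvd (by norm_num) (hprime.dvd_of_dvd_pow h5)
      omega
    · have h6 := Nat.le_of_dvd (by norm_num) (hprime.dvd_of_dvd_pow h5)
      omega
  have hd : ((6 * (16 + 7 * u)) ^ 2 - 4 * ((-3 : ℤ) : R)) * ((-6 * (16 - 7 * u)) ^ 2 - 4 * ((-3 : ℤ) : R))
      = ((589824 : ℤ) : R) := by
    push_cast
    linear_combination (3111696 * u ^ 2 - 16913232) * hu
  have h396 : (6 * (16 + 7 * u)) * (-6 * (16 - 7 * u)) = -((396 : ℤ) : R) := by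
    push_cast
    linear_combination (1764 : R) * hu
  have hd1 : q ((6 * (16 + 7 * u)) ^ 2 - 4 * ((-3 : ℤ) : R)) ≠ 0 := by
    intro h
    apply hq58
    rw [← hd, map_mul, h, zero_mul]
  have hd2 : q ((-6 * (16 - 7 * u)) ^ 2 - 4 * ((-3 : ℤ) : R)) ≠ 0 := by
    intro h
    apply hq58
    rw [← hd, map_mul, h, mul_zero]
  have hA' : q (-6 * (16 - 7 * u)) ≠ 0 := by
    intro h
    apply hq396
    have h1 : ((396 : ℤ) : R) = -((6 * (16 + 7 * u)) * (-6 * (16 - 7 * u))) := by rw [h396, neg_neg]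
    rw [h1, map_neg, map_mul, h, mul_zero, neg_zero]
  have hfr : q (6 * (16 + 7 * u)) ^ p = ((-1 : ℤ) : k) * q (-6 * (16 - 7 * u)) := by
    have h1 : q (6 * (16 + 7 * u)) = 6 * (16 + 7 * q u) := by
      simp [map_mul, map_add, map_ofNat]
    have h2 : q (-6 * (16 - 7 * u)) = -6 * (16 - 7 * q u) := by
      simp [map_mul, map_add, map_sub, map_ofNat, map_neg]
    have h3 : frobenius k p (6 * (16 + 7 * q u)) = 6 * (16 + 7 * (frobenius k p (q u))) := by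
      simp only [map_mul, map_add, map_ofNat]
    rw [frobenius_def, frobenius_def, hqu] at h3
    rw [h1, h2, h3]
    push_cast
    ring
  have hodd : Odd ((1 : ℤ) * a + 1 * b) := by
    rw [← Int.not_even_iff_odd]
    intro he
    obtain ⟨c, hc⟩ := he
    have ha : a = 2 * c - b := by linarith
    have h1 : (p : ℤ) = 2 * (6 * c ^ 2 - 6 * c * b + 4 * b ^ 2) := by
      rw [hp, ha]
      ring
    have h2 : (p : ℤ) = 2 * (m : ℤ) + 1 := by exact_mod_cast hpm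
    omega
  have hk1 : KOp y (6 * (16 + 7 * u)) ((-3 : ℤ) : R) (6 * (16 + 7 * u)) ((-3 : ℤ) : R) (u * v) (3 * 5) 1 := by
    rw [hB]
    exact k1
  have hk2 : KOp y (6 * (16 + 7 * u)) ((-3 : ℤ) : R) (-6 * (16 - 7 * u)) ((-3 : ℤ) : R) (v * (2 + u)) 3 1 := by
    rw [hB]
    exact k2
  have hk3 : KOp y (6 * (16 + 7 * u)) ((-3 : ℤ) : R) (-6 * (16 - 7 * u)) ((-3 : ℤ) : R) (5 + 2 * u) 5 1 := by
    rw [hB]
    exact k3
  have hk4 : KOp y (-6 * (16 - 7 * u)) ((-3 : ℤ) : R) (6 * (16 + 7 * u)) ((-3 : ℤ) : R) (v * (2 - u)) 3 1 := by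
    rw [hB]
    exact k4
  have hr2 : RP y (-6 * (16 - 7 * u)) ((-3 : ℤ) : R) (v * (2 + u)) := by
    rw [hB]
    exact r2
  have hr3 : RP y (-6 * (16 - 7 * u)) ((-3 : ℤ) : R) (5 + 2 * u) := by
    rw [hB]
    exact r3
  have hy' : Yy (6 * (16 + 7 * u)) ((-3 : ℤ) : R) y := by
    rw [hB]
    exact hy
  have hpR : (p : R) = 3 * (a : R) ^ 2 + 5 * (b : R) ^ 2 := by
    have h1 : ((p : ℤ) : R) = ((3 * a ^ 2 + 5 * b ^ 2 : ℤ) : R) := by rw [hp]
    push_cast at h1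
    exact h1
  have hβ : (u * v) ^ 2 = -((3 * 5 : ℕ) : R) := by
    push_cast
    linear_combination v ^ 2 * hu + 5 * hv
  have hμμ : (v * (2 - u)) * (v * (2 + u)) = ((1 : ℤ) : R) * ((3 : ℕ) : R) := by
    push_cast
    linear_combination (4 - u ^ 2) * hv + 3 * hu
  have hμν : (v * (2 - u)) * (5 + 2 * u) = ((-1 : ℤ) : R) * (u * v) := by
    push_cast
    linear_combination (-2 * v) * hu
  have hπ : ((a : R) * (v * (2 + u)) + b * (5 + 2 * u)) = (2 + u) * (v * a + u * b) := by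
    linear_combination (-(b : R)) * hu
  have hα : ((a : R) * (v * (2 + u)) + b * (5 + 2 * u)) * ((u - 2) * (u * b - v * a)) = (p : R) := by
    rw [hπ, hpR]
    linear_combination ((u ^ 2 * b ^ 2 - v ^ 2 * a ^ 2) + (b : R) ^ 2) * hu - (a : R) ^ 2 * hv
  have hq0 : q ((a : R) * (v * (2 + u)) + b * (5 + 2 * u)) = 0 := by
    rw [hπ, map_mul, hz, mul_zero]
  obtain ⟨z, hzz⟩ := hTW R k p m q hq (by omega) hpm (6 * (16 + 7 * u)) (-6 * (16 - 7 * u)) (u * v)
    (v * (2 + u)) (5 + 2 * u) (v * (2 - u)) ((u - 2) * (u * b - v * a)) (-3) (-1) 3 5 1 1 1 1 1 (-1) a b y w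
    hy' hw hp3 hd1 hd2 (by norm_num) (by norm_num) hβ hk1 hk2 hk3 hk4 (by norm_num) (by norm_num) hμμ hμν
    hr2 hr3 (by rw [hp]; push_cast; ring) hodd hα hq0 (by norm_num) hfr hA'
  refine ⟨z, ?_⟩
  rw [hzz]
  push_cast
  ring

end Pool.Agent.helper60.DB
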