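import Pool.Agent.helper60.DB.SpecM

/-!
# bm:Q1
-/

namespace Pool.Agent.helper60.DB

/-- ROW bm:Q1 -/
theorem Q1 (h : Q0_stmt) : Q1_stmt := by
  intro H N hN hp h10 hle
  have hq := h H hp
  have hz1 : H 0 1 ≤ N := by
    have h1 := hle 1 0
    rw [mul_zero, h10, mul_one] at h1
    exact h1
  have hz2 : N ≤ H 0 1 := by
    have h1 := hle 0 1
    have h2 := hq (-N * 1) 0
    rw [h10] at h2
    have h3 : N * N ≤ N * H 0 1 := by
      rw [h2] at h1
      linarith
    exact le_of_mul_le_mul_left h3 hN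
  have hz : H 0 1 = N := le_antisymm hz1 hz2
  obtain ⟨c, hc⟩ : ∃ c, c = H 1 1 - H 1 0 - H 0 1 := ⟨_, rfl⟩
  rw [← hc] at hq
  simp only [h10, hz] at hq
  have hc1 : 0 ≤ N * c := by
    have h1 := hle 1 1
    have h2 := hq (-N * 1) 1
    have h3 := hq 1 1
    rw [h2, h3] at h1
    linarith
  have hc2 : N * c ≤ 0 := by
    have h1 := hle 1 (-1)
    have h2 := hq (-N * -1) 1
    have h3 := hq 1 (-1)
    rw [h2, h3] at h1
    linarith
  have hc0 : c = 0 := by
    have h1 : N * c = 0 := le_antisymm hc2 hc1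
    exact (mul_eq_zero.1 h1).resolve_left hN.ne'
  intro a b
  rw [hq, hc0]
  ring

end Pool.Agent.helper60.DB
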