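import Pool.Agent.helper60.DB.SpecC

/-!
# bc:YE — square roots of power series
-/

namespace Pool.Agent.helper60.DB

open Polynomial Finset

/-- the coefficients of the square root -/
noncomputable def YE_c {R : Type} [CommRing R] (h : R) (f : ℕ → R) : ℕ → R
  | 0 => 1
  | n + 1 => h * (f (n + 1) - ∑ i : Fin n, YE_c h f (i.1 + 1) * YE_c h f (n - i.1))
termination_by n => n
decreasing_by
  · have := i.2
    omega
  · omega

theorem YE_zero {R : Type} [CommRing R] (h : R) (f : ℕ → R) : YE_c h f 0 = 1 := by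
  rw [YE_c]

theorem YE_succ {R : Type} [CommRing R] (h : R) (f : ℕ → R) (n : ℕ) :
    YE_c h f (n + 1) = h * (f (n + 1) - ∑ i ∈ range n, YE_c h f (i + 1) * YE_c h f (n - i)) := by
  rw [YE_c, Finset.sum_range (fun i => YE_c h f (i + 1) * YE_c h f (n - i))]

theorem YE_sq {R : Type} [CommRing R] (h : R) (hh : 2 * h = 1) (f : ℕ → R) (f0 : f 0 = 1) :
    (PowerSeries.mk (YE_c h f)) ^ 2 = PowerSeries.mk f := by
  ext n
  rw [pow_two, PowerSeries.coeff_mul, PowerSeries.coeff_mk]
  simp only [PowerSeries.coeff_mk]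
  rw [Finset.Nat.sum_antidiagonal_eq_sum_range_succ_mk]
  cases n with
  | zero => simp [YE_zero, f0]
  | succ n =>
    rw [Finset.sum_range_succ', Finset.sum_range_succ]
    have h1 : ∀ i ∈ range n, YE_c h f (i + 1) * YE_c h f (n + 1 - (i + 1)) =
        YE_c h f (i + 1) * YE_c h f (n - i) := fun i _ => by rw [Nat.add_sub_add_right]
    rw [Finset.sum_congr rfl h1]
    rw [Nat.sub_self, Nat.sub_zero, YE_zero, YE_succ]
    linear_combination (f (n + 1) - ∑ i ∈ range n, YE_c h f (i + 1) * YE_c h f (n - i)) * hh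

/-- ROW bc:YE -/
theorem YE : YE_stmt := by
  intro R _ h2 A B
  obtain ⟨h, hh⟩ : ∃ h : R, 2 * h = 1 := h2.exists_right_inv
  obtain ⟨F, hF⟩ : ∃ F : PowerSeries R, F = 1 + PowerSeries.C A * PowerSeries.X +
      PowerSeries.C B * PowerSeries.X ^ 2 := ⟨_, rfl⟩
  have hF0 : PowerSeries.coeff 0 F = 1 := by
    rw [hF]
    simp
  have hmk : PowerSeries.mk (fun n => PowerSeries.coeff n F) = F := by
    ext n
    rw [PowerSeries.coeff_mk]
  have hsq := YE_sq h hh (fun n => PowerSeries.coeff n F) hF0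
  rw [hmk, hF] at hsq
  obtain ⟨y, hy⟩ : ∃ y, y = PowerSeries.mk (YE_c h (fun n => PowerSeries.coeff n F)) := ⟨_, rfl⟩
  have hy1 : PowerSeries.constantCoeff y = 1 := by
    rw [hy, ← PowerSeries.coeff_zero_eq_constantCoeff_apply, PowerSeries.coeff_mk, YE_zero]
  rw [← hF, ← hy] at hsq
  have hu : IsUnit y := by
    rw [PowerSeries.isUnit_iff_constantCoeff, hy1]
    exact isUnit_one
  obtain ⟨w, hw⟩ := hu.exists_left_inv
  refine ⟨y, w, ⟨?_, hy1⟩, hw, ?_⟩
  · rw [hsq, hF]
  · have h1 := congrArg (PowerSeries.constantCoeff (R := R)) hw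
    rw [map_mul, hy1, mul_one, map_one] at h1
    exact h1

end Pool.Agent.helper60.DB
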